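import Pool.Agent.Helper48.QL.L5a

/-!
# QL-L5: change of variables, upper bound
-/

open MeasureTheory Real Set Filter Topology

set_option autoImplicit false

namespace Pool.Agent.Helper48.QL

open Pool.Agent.Helper60.LT (Fr Tf xf yf df vf fr fr_coord fr_meas)
open Pool.Agent.Helper60.QL (R3 OM UB Af)

theorem lint3 {Φ : R3 → ENNReal} (hΦ : Measurable Φ) : ∫⁻ A, Φ A = ∫⁻ a : ℝ, ∫⁻ b : ℝ, ∫⁻ c : ℝ, Φ (a, b, c) := by
  have h1 : ∫⁻ A, Φ A = ∫⁻ a : ℝ, ∫⁻ p : ℝ × ℝ, Φ (a, p) :=
    lintegral_prod (μ := (volume : Measure ℝ)) (ν := (volume : Measure (ℝ × ℝ))) Φ hΦ.aemeasurable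
  rw [h1]
  refine lintegral_congr fun a => ?_
  exact lintegral_prod (μ := (volume : Measure ℝ)) (ν := (volume : Measure ℝ)) (fun p => Φ (a, p))
    (hΦ.comp (measurable_const.prodMk measurable_id)).aemeasurable

theorem rfl_coord (f : Fr) : Tf (rfl' f) = Tf f ∧ xf (rfl' f) = xf f ∧ yf (rfl' f) = -yf f ∧ df (rfl' f) = -df f := by
  have e1 : df (rfl' f) = -df f := by
    simp only [df, rfl']
    ring
  refine ⟨?_, ?_, ?_, e1⟩
  · simp only [Tf, rfl']
    congr 1
    ring
  · simp only [xf, rfl']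
    congr 1 <;> ring
  · simp only [yf]
    rw [e1]
    simp only [rfl']
    rw [neg_div]
    congr 2
    ring

theorem Af0_eq (f : Fr) : Af 0 f = (Tf f * yf f ^ 2 / 2, -(xf f * (Tf f * yf f ^ 2 / 2)), Tf f * yf f ^ 2 / 2 * (xf f ^ 2 - yf f ^ 2 / 4)) := by
  simp only [Af, zero_mul, add_zero]

theorem Af0_rfl (f : Fr) : Af 0 (rfl' f) = Af 0 f := by
  obtain ⟨h1, h2, h3, -⟩ := rfl_coord f
  rw [Af0_eq, Af0_eq, h1, h2, h3, neg_sq]

theorem UB_rfl {B X : ℝ} (f : Fr) : rfl' f ∈ UB B X ↔ f ∈ UB B X := by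
  obtain ⟨-, -, -, h4⟩ := rfl_coord f
  simp only [UB, mem_setOf_eq, h4, abs_neg]
  simp only [rfl', abs_neg]

theorem rfl_meas : Measurable rfl' := by
  unfold rfl'
  fun_prop

/-- both signs of the determinant -/
theorem two_signs {H : Fr → ENNReal} (hH : Measurable H) (hr : ∀ f, H (rfl' f) = H f) (h0 : ∀ f, df f = 0 → H f = 0) :
    ∫⁻ f, H f = 2 * ∫⁻ f, {f : Fr | 0 < df f}.indicator H f := by
  have hm : MeasurableSet {f : Fr | 0 < df f} := measurableSet_lt measurable_const df_meas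
  have hi : Measurable ({f : Fr | 0 < df f}.indicator H) := hH.indicator hm
  have e1 : ∀ f, H f = {f : Fr | 0 < df f}.indicator H f + {f : Fr | 0 < df f}.indicator H (rfl' f) := by
    intro f
    obtain ⟨-, -, -, h4⟩ := rfl_coord f
    rcases lt_trichotomy (df f) 0 with h | h | h
    · rw [indicator_of_notMem (show f ∉ {f : Fr | 0 < df f} from not_lt.2 h.le), zero_add,
        indicator_of_mem (show rfl' f ∈ {f : Fr | 0 < df f} from by
          show 0 < df (rfl' f)
          rw [h4]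
          linarith), hr]
    · rw [indicator_of_notMem (show f ∉ {f : Fr | 0 < df f} from not_lt.2 h.le), zero_add,
        indicator_of_notMem (show rfl' f ∉ {f : Fr | 0 < df f} from by
          show ¬ 0 < df (rfl' f)
          rw [h4]
          linarith), h0 f h]
    · rw [indicator_of_mem (show f ∈ {f : Fr | 0 < df f} from h), indicator_of_notMem (show rfl' f ∉ {f : Fr | 0 < df f} from by
          show ¬ 0 < df (rfl' f)
          rw [h4]
          linarith), add_zero]
  calc ∫⁻ f, H f = ∫⁻ f, ({f : Fr | 0 < df f}.indicator H f + {f : Fr | 0 < df f}.indicator H (rfl' f)) := lintegral_congr e1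
    _ = (∫⁻ f, {f : Fr | 0 < df f}.indicator H f) + ∫⁻ f, {f : Fr | 0 < df f}.indicator H (rfl' f) := lintegral_add_left hi _
    _ = (∫⁻ f, {f : Fr | 0 < df f}.indicator H f) + ∫⁻ f, {f : Fr | 0 < df f}.indicator H f := by rw [refl_int hi]
    _ = 2 * ∫⁻ f, {f : Fr | 0 < df f}.indicator H f := by rw [two_mul]

/-- upper bound for the integral over frames of positive determinant -/
theorem up_pos {B : ℝ} (hB : 1 ≤ B) {X : ℝ} (hX : 0 < X) {Φ : R3 → ENNReal} (hΦ : Measurable Φ) :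
    ∫⁻ f, {f : Fr | 0 < df f}.indicator ((UB B X).indicator fun f => Φ (Af 0 f)) f ≤
      ENNReal.ofReal (2 * π) * (ENNReal.ofReal (524288 * B ^ 22 * X) * ∫⁻ A in OM (262144 * B ^ 22) X, Φ A) := by
  have hB0 : 0 < B := by linarith
  have hm : MeasurableSet {f : Fr | 0 < df f} := measurableSet_lt measurable_const df_meas
  have hF : Measurable ({f : Fr | 0 < df f}.indicator ((UB B X).indicator fun f => Φ (Af 0 f))) :=
    ((hΦ.comp (Af_meas 0)).indicator (UB_meas B X)).indicator hm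
  have hOm : Measurable ((OM (262144 * B ^ 22) X).indicator Φ) := hΦ.indicator (OM_meas _ _)
  rw [int_A hF (fun f hf => indicator_of_notMem (show f ∉ {f : Fr | 0 < df f} from not_lt.2 hf) _)]
  have key : ∀ θ : ℝ, ∫⁻ A in Ioi (0 : ℝ), ∫⁻ b, ∫⁻ c in Iio (b ^ 2 / A), ENNReal.ofReal (16 * TA A b c / yA A b c ^ 7) *
      {f : Fr | 0 < df f}.indicator ((UB B X).indicator fun f => Φ (Af 0 f)) (frA θ A b c) ≤
      ENNReal.ofReal (524288 * B ^ 22 * X) * ∫⁻ A in OM (262144 * B ^ 22) X, Φ A := by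
    intro θ
    rw [← lintegral_indicator (OM_meas _ _), lint3 hOm, ← lintegral_const_mul' _ _ ENNReal.ofReal_ne_top,
      ← lintegral_indicator measurableSet_Ioi]
    refine lintegral_mono fun a => ?_
    by_cases ha : 0 < a
    swap
    · rw [indicator_of_notMem (show a ∉ Ioi (0 : ℝ) from ha)]
      exact zero_le
    rw [indicator_of_mem (show a ∈ Ioi (0 : ℝ) from ha), ← lintegral_const_mul' _ _ ENNReal.ofReal_ne_top]
    refine lintegral_mono fun b => ?_
    rw [← lintegral_const_mul' _ _ ENNReal.ofReal_ne_top, ← lintegral_indicator measurableSet_Iio]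
    refine lintegral_mono fun c => ?_
    by_cases hc : c < b ^ 2 / a
    swap
    · rw [indicator_of_notMem (show c ∉ Iio (b ^ 2 / a) from hc)]
      exact zero_le
    rw [indicator_of_mem (show c ∈ Iio (b ^ 2 / a) from hc)]
    obtain ⟨h1, h2, h3, h4, hy, hT⟩ := frA_coord (θ := θ) ha hc
    by_cases hU : frA θ a b c ∈ UB B X
    swap
    · have e0 : {f : Fr | 0 < df f}.indicator ((UB B X).indicator fun f => Φ (Af 0 f)) (frA θ a b c) = 0 := by
        by_cases hd : frA θ a b c ∈ {f : Fr | 0 < df f}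
        · rw [indicator_of_mem hd, indicator_of_notMem hU]
        · rw [indicator_of_notMem hd]
      rw [e0, mul_zero]
      exact zero_le
    have hd : frA θ a b c ∈ {f : Fr | 0 < df f} := by
      show 0 < df (frA θ a b c)
      rw [h4]
      positivity
    rw [indicator_of_mem hd, indicator_of_mem hU, Af_frA ha hc]
    obtain ⟨g1, g2, g3, g4, -, -⟩ := UB_bd hB0.le hX hU
    have hmem : (a, b, c) ∈ OM (262144 * B ^ 22) X := by
      have := OM_of g1 hX hB g2 g3 g4
      rw [← Af0_eq, Af_frA ha hc] at this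
      exact this
    rw [indicator_of_mem hmem]
    rw [h1, h3] at g4
    rw [h1, h2, h3] at g3
    rw [h1] at g2
    obtain ⟨k1, -, -, -, k5⟩ := coord_bd hT hX hB g2 g3 g4
    rw [abs_of_pos hy] at k5
    refine mul_le_mul_left (ENNReal.ofReal_le_ofReal ?_) _
    rw [div_le_iff₀ (by positivity)]
    have k6 : 1 ≤ (4 * B ^ 3 * yA a b c) ^ 7 := one_le_pow₀ k5
    calc 16 * TA a b c = 16 * TA a b c * 1 := by ring
      _ ≤ 16 * (2 * B * X) * (4 * B ^ 3 * yA a b c) ^ 7 := by gcongr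
      _ = 524288 * B ^ 22 * X * yA a b c ^ 7 := by ring
  refine (lintegral_mono fun θ => key θ).trans ?_
  rw [setLIntegral_const, Real.volume_Ioc, mul_comm]
  have e2 : π - -π = 2 * π := by ring
  rw [e2]

theorem cov_up' {B : ℝ} (hB : 1 ≤ B) (X t₀ : ℝ) (Φ : R3 → ENNReal) (hX : 0 < X) (ht : |t₀| ≤ 3) (hΦ : Measurable Φ) :
    ∫⁻ f in UB B X, Φ (Af t₀ f) ≤ ENNReal.ofReal (4 * π * (524288 * (4 * B) ^ 22) * X) * ∫⁻ A in OM (262144 * (4 * B) ^ 22) X, Φ A := by
  have hB4 : 1 ≤ 4 * B := by linarith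
  have hH : Measurable ((UB (4 * B) X).indicator fun f => Φ (Af 0 f)) := (hΦ.comp (Af_meas 0)).indicator (UB_meas _ _)
  have h1 : ∫⁻ f in UB B X, Φ (Af t₀ f) ≤ ∫⁻ f, (UB (4 * B) X).indicator (fun f => Φ (Af 0 f)) (shr t₀ f) := by
    rw [← lintegral_indicator (UB_meas _ _)]
    refine lintegral_mono fun f => ?_
    by_cases hf : f ∈ UB B X
    · rw [indicator_of_mem hf, indicator_of_mem (shr_UB hX.le (by linarith) ht hf), Af_shr]
    · rw [indicator_of_notMem hf]
      exact zero_le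
  refine h1.trans ?_
  rw [shear_int hH, two_signs hH ?_ ?_]
  · refine (mul_le_mul_right (up_pos hB4 hX hΦ) _).trans (le_of_eq ?_)
    have e1 : (2 : ENNReal) = ENNReal.ofReal 2 := by simp
    rw [e1, ← mul_assoc, ← mul_assoc, ← ENNReal.ofReal_mul (by norm_num), ← ENNReal.ofReal_mul (by positivity)]
    congr 2
    ring
  · intro f
    by_cases hf : f ∈ UB (4 * B) X
    · rw [indicator_of_mem hf, indicator_of_mem ((UB_rfl f).2 hf), Af0_rfl]
    · rw [indicator_of_notMem hf, indicator_of_notMem (fun h => hf ((UB_rfl f).1 h))]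
  · intro f hf
    rw [indicator_of_notMem]
    intro h
    exact (UB_bd (by linarith) hX h).2.2.2.2.2 hf

end Pool.Agent.Helper48.QL
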