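import Pool.Agent.Helper48.QL.Int
import Pool.Agent.Helper60.QL.Defs

/-!
# QL-L5: integrals over boxes of frames and over boxes of coordinates
-/

open MeasureTheory Real Set Filter Topology

set_option autoImplicit false

namespace Pool.Agent.Helper48.QL

open Pool.Agent.Helper60.LT (Fr Tf xf yf df vf fr fr_coord fr_meas)
open Pool.Agent.Helper60.QL (R3 OM UB Af)

/-- the shear of a frame -/
def shr (t₀ : ℝ) (f : Fr) : Fr := ((f.1.1 + t₀ * f.2.1, f.1.2 + t₀ * f.2.2), f.2)

/-- the reflection of a frame -/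
def rfl' (f : Fr) : Fr := ((f.1.1, -f.1.2), (f.2.1, -f.2.2))

theorem Tf_meas : Measurable Tf := by
  unfold Tf
  fun_prop

theorem xf_meas : Measurable xf := by
  unfold xf
  fun_prop

theorem df_meas : Measurable df := by
  unfold df
  fun_prop

theorem yf_meas : Measurable yf := by
  unfold yf df
  fun_prop

theorem shr_meas (t₀ : ℝ) : Measurable (shr t₀) := by
  unfold shr
  fun_prop

theorem Af_meas (t₀ : ℝ) : Measurable (Af t₀) := by
  have h0 := shr_meas t₀
  have h1 : Measurable (fun f => Tf (shr t₀ f) * yf (shr t₀ f) ^ 2 / 2) :=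
    ((Tf_meas.comp h0).mul ((yf_meas.comp h0).pow_const 2)).div_const 2
  have h2 : Measurable (fun f => -(xf (shr t₀ f) * (Tf (shr t₀ f) * yf (shr t₀ f) ^ 2 / 2))) :=
    ((xf_meas.comp h0).mul h1).neg
  have h3 : Measurable (fun f => Tf (shr t₀ f) * yf (shr t₀ f) ^ 2 / 2 * (xf (shr t₀ f) ^ 2 - yf (shr t₀ f) ^ 2 / 4)) :=
    h1.mul (((xf_meas.comp h0).pow_const 2).sub (((yf_meas.comp h0).pow_const 2).div_const 4))
  exact h1.prodMk (h2.prodMk h3)

theorem Af_shr (t₀ : ℝ) (f : Fr) : Af 0 (shr t₀ f) = Af t₀ f := by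
  simp only [Af, shr, zero_mul, add_zero]

theorem shear_int {F : Fr → ENNReal} (hF : Measurable F) (t₀ : ℝ) : ∫⁻ f, F (shr t₀ f) = ∫⁻ f, F f := by
  have h1 : ∫⁻ f, F (shr t₀ f) = ∫⁻ v : ℝ × ℝ, ∫⁻ u : ℝ × ℝ, F (shr t₀ (u, v)) :=
    lintegral_prod_symm (μ := (volume : Measure (ℝ × ℝ))) (ν := (volume : Measure (ℝ × ℝ))) (fun f => F (shr t₀ f))
      (hF.comp (shr_meas t₀)).aemeasurable
  have h2 : ∫⁻ f, F f = ∫⁻ v : ℝ × ℝ, ∫⁻ u : ℝ × ℝ, F (u, v) := by
    rw [← lintegral_prod_symm _ hF.aemeasurable]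
    rfl
  rw [h1, h2]
  refine lintegral_congr fun v => ?_
  have h3 := lintegral_add_right_eq_self (μ := (volume : Measure (ℝ × ℝ))) (fun u : ℝ × ℝ => F (u, v)) (t₀ * v.1, t₀ * v.2)
  rw [← h3]
  rfl

theorem refl_int {F : Fr → ENNReal} (hF : Measurable F) : ∫⁻ f, F (rfl' f) = ∫⁻ f, F f := by
  have h1 : MeasurePreserving (fun p : ℝ × ℝ => (p.1, -p.2)) (volume : Measure (ℝ × ℝ)) volume :=
    (MeasurePreserving.id (volume : Measure ℝ)).prod (Measure.measurePreserving_neg (volume : Measure ℝ))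
  have h2 : MeasurePreserving rfl' (volume : Measure Fr) volume := h1.prod h1
  exact h2.lintegral_comp hF

theorem UB_meas (B X : ℝ) : MeasurableSet (UB B X) := by
  have h1 : Measurable (fun f : Fr => |f.1.1|) := by fun_prop
  have h2 : Measurable (fun f : Fr => |f.1.2|) := by fun_prop
  have h3 : Measurable (fun f : Fr => |f.2.1|) := by fun_prop
  have h4 : Measurable (fun f : Fr => |f.2.2|) := by fun_prop
  have h5 : Measurable (fun f : Fr => B * |df f|) := (df_meas.abs).const_mul B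
  exact (measurableSet_le h1 measurable_const).inter ((measurableSet_le h2 measurable_const).inter
    ((measurableSet_le h3 measurable_const).inter ((measurableSet_le h4 measurable_const).inter
    (measurableSet_le measurable_const h5))))

theorem OM_meas (B X : ℝ) : MeasurableSet (OM B X) := by
  have h1 : Measurable (fun A : R3 => B * A.1) := by fun_prop
  have h2 : Measurable (fun A : R3 => A.1) := by fun_prop
  have h3 : Measurable (fun A : R3 => |A.2.1|) := by fun_prop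
  have h4 : Measurable (fun A : R3 => |A.2.2|) := by fun_prop
  have h5 : Measurable (fun A : R3 => B * (A.2.1 ^ 2 - A.2.2 * A.1)) := by fun_prop
  exact (measurableSet_le measurable_const h1).inter ((measurableSet_le h2 measurable_const).inter
    ((measurableSet_le h3 measurable_const).inter ((measurableSet_le h4 measurable_const).inter
    (measurableSet_le measurable_const h5))))

theorem shr_UB {B X t₀ : ℝ} (hX : 0 ≤ X) (hB : 0 ≤ B) (ht : |t₀| ≤ 3) {f : Fr} (hf : f ∈ UB B X) : shr t₀ f ∈ UB (4 * B) X := by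
  obtain ⟨h1, h2, h3, h4, h5⟩ := hf
  have hBX : 0 ≤ B * X := mul_nonneg hB hX
  have e : df (shr t₀ f) = df f := by
    simp only [df, shr]
    ring
  refine ⟨?_, ?_, ?_, ?_, ?_⟩
  · show |f.1.1 + t₀ * f.2.1| ≤ _
    calc |f.1.1 + t₀ * f.2.1| ≤ |f.1.1| + |t₀ * f.2.1| := abs_add_le _ _
      _ = |f.1.1| + |t₀| * |f.2.1| := by rw [abs_mul]
      _ ≤ B * X + 3 * (B * X) := by gcongr
      _ = 4 * B * X := by ring
  · show |f.1.2 + t₀ * f.2.2| ≤ _
    calc |f.1.2 + t₀ * f.2.2| ≤ |f.1.2| + |t₀ * f.2.2| := abs_add_le _ _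
      _ = |f.1.2| + |t₀| * |f.2.2| := by rw [abs_mul]
      _ ≤ B * X + 3 * (B * X) := by gcongr
      _ = 4 * B * X := by ring
  · show |f.2.1| ≤ _
    linarith
  · show |f.2.2| ≤ _
    linarith
  · rw [e]
    have : 0 ≤ B * |df f| := mul_nonneg hB (abs_nonneg _)
    linarith

theorem shr_neg (t₀ : ℝ) (f : Fr) : shr (-t₀) (shr t₀ f) = f := by
  obtain ⟨⟨a, b⟩, ⟨c, d⟩⟩ := f
  simp only [shr]
  ext <;> simp only <;> ring

/-- the coordinates of `frA` -/
theorem frA_coord {θ a b c : ℝ} (ha : 0 < a) (hc : c < b ^ 2 / a) :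
    Tf (frA θ a b c) = TA a b c ∧ xf (frA θ a b c) = -(b / a) ∧ yf (frA θ a b c) = yA a b c ∧
      df (frA θ a b c) = TA a b c ^ 2 * yA a b c ∧ 0 < yA a b c ∧ 0 < TA a b c := by
  have hy := yA_pos ha hc
  have hT : 0 < TA a b c := by
    unfold TA
    positivity
  obtain ⟨h1, h2, h3, h4⟩ := fr_coord (θ := θ) (y := yA a b c) (T := TA a b c) (x := -(b / a)) hT
  exact ⟨h1, h2, h3, h4, hy, hT⟩

theorem Af_frA {θ a b c : ℝ} (ha : 0 < a) (hc : c < b ^ 2 / a) : Af 0 (frA θ a b c) = (a, b, c) := by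
  obtain ⟨h1, h2, h3, -, hy, -⟩ := frA_coord (θ := θ) ha hc
  have hsq := yA_sq ha hc.le
  simp only [Af, zero_mul, add_zero]
  rw [h1, h2, h3]
  have e1 : TA a b c * yA a b c ^ 2 / 2 = a := by
    unfold TA
    field_simp
  rw [e1]
  ext
  · rfl
  · show -(-(b / a) * a) = b
    field_simp
  · show a * ((-(b / a)) ^ 2 - yA a b c ^ 2 / 4) = c
    rw [hsq]
    field_simp
    ring

end Pool.Agent.Helper48.QL
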