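import Pool.Agent.Helper48.QL.Sub

/-!
# QL-Q5: integration over frames in the coordinates `θ, A₂, A₃, A₄`
-/

open MeasureTheory Real Set Filter Topology

set_option autoImplicit false

namespace Pool.Agent.Helper48.QL

open Pool.Agent.Helper60.LT

theorem yA_meas : Measurable (fun q : ℝ × ℝ × ℝ => yA q.1 q.2.1 q.2.2) := by
  unfold yA
  fun_prop

theorem TA_meas : Measurable (fun q : ℝ × ℝ × ℝ => TA q.1 q.2.1 q.2.2) := by
  unfold TA
  exact (measurable_fst.const_mul 2).div (yA_meas.pow_const 2)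

theorem frA_meas : Measurable (fun q : ℝ × ℝ × ℝ × ℝ => frA q.1 q.2.1 q.2.2.1 q.2.2.2) := by
  have h1 : Measurable (fun q : ℝ × ℝ × ℝ × ℝ => (q.1, yA q.2.1 q.2.2.1 q.2.2.2, TA q.2.1 q.2.2.1 q.2.2.2, -(q.2.2.1 / q.2.1))) := by
    refine measurable_fst.prodMk ((yA_meas.comp measurable_snd).prodMk ((TA_meas.comp measurable_snd).prodMk ?_))
    fun_prop
  exact fr_meas.comp h1

/-- for fixed `θ` -/
theorem int_A_fix {F : Fr → ENNReal} (hF : Measurable F) (θ : ℝ) :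
    ∫⁻ y in Ioi (0 : ℝ), ∫⁻ T in Ioi (0 : ℝ), ∫⁻ x, ENNReal.ofReal (T ^ 3) * F (fr θ y T x) =
      ∫⁻ A in Ioi (0 : ℝ), ∫⁻ B, ∫⁻ C in Iio (B ^ 2 / A), ENNReal.ofReal (16 * TA A B C / yA A B C ^ 7) * F (frA θ A B C) := by
  set G : ℝ → ℝ → ℝ → ENNReal := fun y A B => ENNReal.ofReal (2 / y ^ 2) * (ENNReal.ofReal (1 / A) *
    (ENNReal.ofReal ((2 * A / y ^ 2) ^ 3) * F (fr θ y (2 * A / y ^ 2) (-(B / A))))) with hG
  have hFf : Measurable (fun q : ℝ × ℝ × ℝ × ℝ => F (fr q.1 q.2.1 q.2.2.1 q.2.2.2)) := hF.comp fr_meas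
  have hGm : Measurable (fun q : ℝ × ℝ × ℝ => G q.1 q.2.1 q.2.2) := by
    have h1 : Measurable (fun q : ℝ × ℝ × ℝ => (θ, q.1, 2 * q.2.1 / q.1 ^ 2, -(q.2.2 / q.2.1))) := by fun_prop
    have h2 : Measurable (fun q : ℝ × ℝ × ℝ => ENNReal.ofReal (2 / q.1 ^ 2)) := by fun_prop
    have h3 : Measurable (fun q : ℝ × ℝ × ℝ => ENNReal.ofReal (1 / q.2.1)) := by fun_prop
    have h4 : Measurable (fun q : ℝ × ℝ × ℝ => ENNReal.ofReal ((2 * q.2.1 / q.1 ^ 2) ^ 3)) := by fun_prop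
    exact h2.mul (h3.mul (h4.mul (hFf.comp h1)))
  have e1 : ∫⁻ y in Ioi (0 : ℝ), ∫⁻ T in Ioi (0 : ℝ), ∫⁻ x, ENNReal.ofReal (T ^ 3) * F (fr θ y T x) =
      ∫⁻ y in Ioi (0 : ℝ), ∫⁻ A in Ioi (0 : ℝ), ∫⁻ B, G y A B := by
    refine setLIntegral_congr_fun measurableSet_Ioi fun y hy => ?_
    have hy' : 0 < y := hy
    rw [sub1 _ hy'.ne']
    refine setLIntegral_congr_fun measurableSet_Ioi fun A hA => ?_
    have hA' : 0 < A := hA
    rw [sub2 _ hA', ← lintegral_const_mul' _ _ ENNReal.ofReal_ne_top]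
  rw [e1]
  clear_value G
  have e2 : ∫⁻ y in Ioi (0 : ℝ), ∫⁻ A in Ioi (0 : ℝ), ∫⁻ B, G y A B = ∫⁻ A in Ioi (0 : ℝ), ∫⁻ y in Ioi (0 : ℝ), ∫⁻ B, G y A B := by
    refine lintegral_lintegral_swap (f := fun y A => ∫⁻ B, G y A B) ?_
    have h1 : Measurable (fun q : (ℝ × ℝ) × ℝ => G q.1.1 q.1.2 q.2) :=
      hGm.comp (measurable_fst.fst.prodMk (measurable_fst.snd.prodMk measurable_snd))
    exact h1.lintegral_prod_right'.aemeasurable
  rw [e2]
  refine setLIntegral_congr_fun measurableSet_Ioi fun A hA => ?_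
  have hA' : 0 < A := hA
  have e3 : ∫⁻ y in Ioi (0 : ℝ), ∫⁻ B, G y A B = ∫⁻ B, ∫⁻ y in Ioi (0 : ℝ), G y A B := by
    refine lintegral_lintegral_swap (f := fun y B => G y A B) ?_
    exact (hGm.comp (measurable_fst.prodMk (measurable_const.prodMk measurable_snd))).aemeasurable
  rw [e3]
  refine lintegral_congr fun B => ?_
  rw [sub3 _ hA' B]
  refine setLIntegral_congr_fun measurableSet_Iio fun C hC => ?_
  have hpos := yA_pos hA' hC
  simp only [hG]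
  rw [← mul_assoc, ← mul_assoc, ← mul_assoc, ← ENNReal.ofReal_mul (by positivity), ← ENNReal.ofReal_mul (by positivity),
    ← ENNReal.ofReal_mul (by positivity)]
  congr 2
  unfold TA
  field_simp
  norm_num

/-- integration over the frames of positive determinant in the coordinates `θ, A₂, A₃, A₄` -/
theorem int_A {F : Fr → ENNReal} (hF : Measurable F) (h0 : ∀ f, df f ≤ 0 → F f = 0) :
    ∫⁻ f, F f = ∫⁻ θ in Ioc (-π) π, ∫⁻ A in Ioi (0 : ℝ), ∫⁻ B, ∫⁻ C in Iio (B ^ 2 / A),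
      ENNReal.ofReal (16 * TA A B C / yA A B C ^ 7) * F (frA θ A B C) := by
  rw [int_fr hF]
  refine lintegral_congr fun θ => ?_
  rw [← int_A_fix hF θ, ← lintegral_indicator measurableSet_Ioi]
  refine lintegral_congr fun y => ?_
  by_cases hy : 0 < y
  · rw [indicator_of_mem (show y ∈ Ioi (0 : ℝ) from hy)]
  · rw [indicator_of_notMem (show y ∉ Ioi (0 : ℝ) from hy), ← nonpos_iff_eq_zero, ← lintegral_zero (μ := volume.restrict (Ioi (0 : ℝ)))]
    refine setLIntegral_mono' measurableSet_Ioi fun T hT => ?_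
    rw [nonpos_iff_eq_zero]
    have h1 : ∀ x, ENNReal.ofReal (T ^ 3) * F (fr θ y T x) = 0 := by
      intro x
      have hT' : 0 < T := hT
      obtain ⟨-, -, -, e4⟩ := fr_coord (θ := θ) (y := y) (T := T) (x := x) hT'
      rw [h0, mul_zero]
      rw [e4]
      have : 0 < T ^ 2 := by positivity
      nlinarith only [hy]
    simp only [h1, lintegral_zero]

end Pool.Agent.Helper48.QL
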