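import Pool.Agent.Helper48.QL.L5c

/-!
# QL-L5: frames and the coordinates `A`
-/

open MeasureTheory Real Set Filter Topology

set_option autoImplicit false

namespace Pool.Agent.Helper60.QL

open Pool.Agent.Helper22.AE
open Pool.Agent.Helper92.GC (dt tp Tq uu tt arc dd)
open Pool.Agent.Helper60.LT (Fr Tf xf yf df vf fr)

theorem nm_frame {f : Fr} (t₀ : ℝ) (hf : df f ≠ 0) {k : ℤ × ℤ} (hk : 0 < k.1) : nm (vf f k) = uu 0 k * pA (Af t₀ f) (tt 0 k - t₀) := by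
  obtain ⟨g, hg⟩ : ∃ g : Fr, g = Helper48.QL.shr t₀ f := ⟨_, rfl⟩
  have hdg : df g ≠ 0 := by
    have e : df g = df f := by
      rw [hg]
      simp only [df, Helper48.QL.shr]
      ring
    rw [e]
    exact hf
  have e1 : g.1.1 = f.1.1 + t₀ * f.2.1 := by rw [hg]; rfl
  have e2 : g.1.2 = f.1.2 + t₀ * f.2.2 := by rw [hg]; rfl
  have e3 : g.2.1 = f.2.1 := by rw [hg]; rfl
  have e4 : g.2.2 = f.2.2 := by rw [hg]; rfl
  obtain ⟨q, hq⟩ : ∃ q, q = g.1.1 ^ 2 + g.1.2 ^ 2 := ⟨_, rfl⟩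
  have hq0 : 0 < q := by
    rcases lt_or_eq_of_le (show 0 ≤ q by rw [hq]; positivity) with h | h
    · exact h
    · exfalso
      rw [hq] at h
      have e5 : g.1.1 = 0 := by nlinarith [sq_nonneg g.1.1, sq_nonneg g.1.2]
      have e6 : g.1.2 = 0 := by nlinarith [sq_nonneg g.1.1, sq_nonneg g.1.2]
      apply hdg
      simp only [df, e5, e6]
      ring
  have eT : Tf g = sqrt q := by rw [hq]; rfl
  have hT : 0 < Tf g := by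
    rw [eT]
    exact sqrt_pos.2 hq0
  have eT2 : Tf g ^ 2 = q := by
    rw [eT, sq_sqrt hq0.le]
  have ex : xf g = (g.1.1 * g.2.1 + g.1.2 * g.2.2) / q := by rw [hq]; rfl
  have ey : yf g = df g / q := by rw [hq]; rfl
  have hy : yf g ≠ 0 := by
    rw [ey]
    exact div_ne_zero hdg hq0.ne'
  have eA : Af t₀ f = (Tf g * yf g ^ 2 / 2, -(xf g * (Tf g * yf g ^ 2 / 2)), Tf g * yf g ^ 2 / 2 * (xf g ^ 2 - yf g ^ 2 / 4)) := by
    rw [← Helper48.QL.Af_shr, ← hg, Helper48.QL.Af0_eq]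
  have ha : Tf g * yf g ^ 2 / 2 ≠ 0 := by positivity
  have exA : xA (Af t₀ f) = xf g := by
    rw [eA]
    simp only [xA]
    field_simp
  have esA : sA (Af t₀ f) = yf g ^ 2 := by
    rw [eA]
    simp only [sA]
    field_simp
    ring
  have eTA : TA (Af t₀ f) = Tf g := by
    rw [TA, esA, eA]
    simp only
    field_simp
  have hk' : (0 : ℝ) < (k.1 : ℝ) := by exact_mod_cast hk
  have eu : uu 0 k = (k.1 : ℝ) := by simp [uu]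
  have et : tt 0 k = (k.2 : ℝ) / (k.1 : ℝ) := by simp [tt, uu]
  rw [pA, exA, esA, eTA, eu, et]
  obtain ⟨τ, hτ⟩ : ∃ τ, τ = (k.2 : ℝ) / (k.1 : ℝ) - t₀ := ⟨_, rfl⟩
  have hk2 : (k.2 : ℝ) = (k.1 : ℝ) * (τ + t₀) := by
    rw [hτ]
    field_simp
    ring
  rw [← hτ]
  have key : (k.1 * f.1.1 + k.2 * f.2.1 : ℝ) ^ 2 + (k.1 * f.1.2 + k.2 * f.2.2 : ℝ) ^ 2 =
      ((k.1 : ℝ) * Tf g) ^ 2 * ((1 + xf g * τ) ^ 2 + yf g ^ 2 * τ ^ 2) := by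
    have h1 : (k.1 * f.1.1 + k.2 * f.2.1 : ℝ) = k.1 * (g.1.1 + τ * g.2.1) := by
      rw [e1, e3, hk2]
      ring
    have h2 : (k.1 * f.1.2 + k.2 * f.2.2 : ℝ) = k.1 * (g.1.2 + τ * g.2.2) := by
      rw [e2, e4, hk2]
      ring
    have h3 : q * (1 + xf g * τ) = q + (g.1.1 * g.2.1 + g.1.2 * g.2.2) * τ := by
      rw [ex]
      field_simp
    have h4 : q * (yf g * τ) = df g * τ := by
      rw [ey]
      field_simp
    have h5 : q * ((1 + xf g * τ) ^ 2 + yf g ^ 2 * τ ^ 2) = (g.1.1 + τ * g.2.1) ^ 2 + (g.1.2 + τ * g.2.2) ^ 2 := by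
      have h6 : q * (q * ((1 + xf g * τ) ^ 2 + yf g ^ 2 * τ ^ 2)) = q * ((g.1.1 + τ * g.2.1) ^ 2 + (g.1.2 + τ * g.2.2) ^ 2) := by
        calc q * (q * ((1 + xf g * τ) ^ 2 + yf g ^ 2 * τ ^ 2)) = (q * (1 + xf g * τ)) ^ 2 + (q * (yf g * τ)) ^ 2 := by ring
          _ = (q + (g.1.1 * g.2.1 + g.1.2 * g.2.2) * τ) ^ 2 + (df g * τ) ^ 2 := by rw [h3, h4]
          _ = q * ((g.1.1 + τ * g.2.1) ^ 2 + (g.1.2 + τ * g.2.2) ^ 2) := by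
            rw [hq]
            simp only [df]
            ring
      exact mul_left_cancel₀ hq0.ne' h6
    rw [h1, h2, mul_pow (k.1 : ℝ) (Tf g), eT2, mul_assoc, h5]
    ring
  show √((k.1 * f.1.1 + k.2 * f.2.1 : ℝ) ^ 2 + (k.1 * f.1.2 + k.2 * f.2.2 : ℝ) ^ 2) = _
  rw [key, sqrt_mul (by positivity), sqrt_sq (by positivity), mul_assoc]

theorem Af_mem {B : ℝ} (hB : 1 ≤ B) : ∃ B' : ℝ, B ≤ B' ∧ ∀ (X t₀ : ℝ) (f : Fr), 0 < X → |t₀| ≤ 3 → f ∈ UB B X → Af t₀ f ∈ OM B' X := by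
  refine ⟨262144 * (4 * B) ^ 22, ?_, fun X t₀ f hX ht hf => Helper48.QL.Af_mem' hB X t₀ f hX ht hf⟩
  have h1 : 4 * B ≤ (4 * B) ^ 22 := le_self_pow₀ (by linarith) (by norm_num)
  linarith

theorem UB_meas (B X : ℝ) : MeasurableSet (UB B X) := Helper48.QL.UB_meas B X

theorem OM_meas (B X : ℝ) : MeasurableSet (OM B X) := Helper48.QL.OM_meas B X

theorem cov_up {B : ℝ} (hB : 1 ≤ B) : ∃ B' C : ℝ, B ≤ B' ∧ 1 ≤ C ∧ ∀ (X t₀ : ℝ) (Φ : R3 → ENNReal), 0 < X → |t₀| ≤ 3 → Measurable Φ →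
    ∫⁻ f in UB B X, Φ (Af t₀ f) ≤ ENNReal.ofReal (C * X) * ∫⁻ A in OM B' X, Φ A := by
  have h1 : 4 * B ≤ (4 * B) ^ 22 := le_self_pow₀ (by linarith) (by norm_num)
  refine ⟨262144 * (4 * B) ^ 22, 4 * π * (524288 * (4 * B) ^ 22), by linarith, ?_, fun X t₀ Φ hX ht hΦ => Helper48.QL.cov_up' hB X t₀ Φ hX ht hΦ⟩
  have h2 : 1 ≤ 524288 * (4 * B) ^ 22 := by linarith
  have h3 := pi_gt_three
  nlinarith

theorem cov_lo {B : ℝ} (hB : 1 ≤ B) : ∃ B' C : ℝ, B ≤ B' ∧ 1 ≤ C ∧ ∀ (X t₀ : ℝ) (Φ : R3 → ENNReal), 0 < X → |t₀| ≤ 3 → Measurable Φ →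
    ENNReal.ofReal X * ∫⁻ A in OM B X, Φ A ≤ ENNReal.ofReal C * ∫⁻ f in UB B' X, Φ (Af t₀ f) := by
  have h1 : B ≤ B ^ 12 := le_self_pow₀ hB (by norm_num)
  have h2 : 1 ≤ B ^ 19 := one_le_pow₀ hB
  exact ⟨4 * (16 * B ^ 12), 1000 * B ^ 19, by linarith, by linarith, fun X t₀ Φ hX ht hΦ => Helper48.QL.cov_lo' hB X t₀ Φ hX ht hΦ⟩

end Pool.Agent.Helper60.QL
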