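import Pool.Agent.Helper48.QL.Box

/-!
# QL-L5: bounds in the coordinates
-/

open MeasureTheory Real Set Filter Topology

set_option autoImplicit false

namespace Pool.Agent.Helper48.QL

open Pool.Agent.Helper60.LT (Fr Tf xf yf df vf fr fr_coord fr_meas)
open Pool.Agent.Helper60.QL (R3 OM UB Af)

/-- bounds for the size, the shear and the height of a frame -/
theorem coord_bd {T x y X B : ℝ} (hT : 0 < T) (hX : 0 < X) (hB : 1 ≤ B) (h1 : T ^ 2 ≤ 2 * B ^ 2 * X ^ 2)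
    (h2 : T ^ 2 * (x ^ 2 + y ^ 2) ≤ 2 * B ^ 2 * X ^ 2) (h3 : X ^ 2 ≤ B * (T ^ 2 * |y|)) :
    T ≤ 2 * B * X ∧ X ≤ 2 * B ^ 2 * T ∧ |x| ≤ 4 * B ^ 3 ∧ |y| ≤ 4 * B ^ 3 ∧ 1 ≤ 4 * B ^ 3 * |y| := by
  have hB0 : 0 < B := by linarith
  have hBX : 0 < B * X := mul_pos hB0 hX
  have g1 : T ≤ 2 * B * X := by
    refine abs_le_of_sq_le_sq' ?_ (by positivity) |>.2
    nlinarith
  have g2 : T * |y| ≤ 2 * B * X := by
    refine abs_le_of_sq_le_sq' ?_ (by positivity) |>.2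
    have e1 : (T * |y|) ^ 2 = T ^ 2 * y ^ 2 := by
      rw [mul_pow, sq_abs]
    rw [e1]
    have : 0 ≤ T ^ 2 * x ^ 2 := by positivity
    nlinarith
  have g3 : T * |x| ≤ 2 * B * X := by
    refine abs_le_of_sq_le_sq' ?_ (by positivity) |>.2
    have e1 : (T * |x|) ^ 2 = T ^ 2 * x ^ 2 := by
      rw [mul_pow, sq_abs]
    rw [e1]
    have : 0 ≤ T ^ 2 * y ^ 2 := by positivity
    nlinarith
  have g4 : X ≤ 2 * B ^ 2 * T := by
    have e1 : X * X ≤ 2 * B ^ 2 * T * X := by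
      calc X * X = X ^ 2 := by ring
        _ ≤ B * (T ^ 2 * |y|) := h3
        _ = B * T * (T * |y|) := by ring
        _ ≤ B * T * (2 * B * X) := by gcongr
        _ = 2 * B ^ 2 * T * X := by ring
    exact le_of_mul_le_mul_right e1 hX
  have g5 : 1 ≤ 4 * B ^ 3 * |y| := by
    have e1 : 1 * X ^ 2 ≤ 4 * B ^ 3 * |y| * X ^ 2 := by
      calc 1 * X ^ 2 = X ^ 2 := by ring
        _ ≤ B * (T ^ 2 * |y|) := h3
        _ ≤ B * ((2 * B * X) ^ 2 * |y|) := by gcongr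
        _ = 4 * B ^ 3 * |y| * X ^ 2 := by ring
    exact le_of_mul_le_mul_right e1 (by positivity)
  have g6 : ∀ z : ℝ, T * |z| ≤ 2 * B * X → |z| ≤ 4 * B ^ 3 := by
    intro z hz
    have e1 : T * |z| ≤ T * (4 * B ^ 3) := by
      calc T * |z| ≤ 2 * B * X := hz
        _ ≤ 2 * B * (2 * B ^ 2 * T) := by gcongr
        _ = T * (4 * B ^ 3) := by ring
    exact le_of_mul_le_mul_left e1 hT
  exact ⟨g1, g4, g6 x g3, g6 y g2, g5⟩

/-- the coordinates are in the region -/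
theorem OM_of {T x y X B : ℝ} (hT : 0 < T) (hX : 0 < X) (hB : 1 ≤ B) (h1 : T ^ 2 ≤ 2 * B ^ 2 * X ^ 2)
    (h2 : T ^ 2 * (x ^ 2 + y ^ 2) ≤ 2 * B ^ 2 * X ^ 2) (h3 : X ^ 2 ≤ B * (T ^ 2 * |y|)) :
    (T * y ^ 2 / 2, -(x * (T * y ^ 2 / 2)), T * y ^ 2 / 2 * (x ^ 2 - y ^ 2 / 4)) ∈ OM (262144 * B ^ 22) X := by
  obtain ⟨g1, g2, g3, g4, g5⟩ := coord_bd hT hX hB h1 h2 h3
  have hB0 : 0 < B := by linarith
  have hy2 : y ^ 2 ≤ 16 * B ^ 6 := by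
    have : |y| ^ 2 ≤ (4 * B ^ 3) ^ 2 := pow_le_pow_left₀ (abs_nonneg _) g4 2
    rw [sq_abs] at this
    calc y ^ 2 ≤ _ := this
      _ = _ := by ring
  have hx2 : x ^ 2 ≤ 16 * B ^ 6 := by
    have : |x| ^ 2 ≤ (4 * B ^ 3) ^ 2 := pow_le_pow_left₀ (abs_nonneg _) g3 2
    rw [sq_abs] at this
    calc x ^ 2 ≤ _ := this
      _ = _ := by ring
  have hy3 : 1 ≤ 16 * B ^ 6 * y ^ 2 := by
    have : 1 ^ 2 ≤ (4 * B ^ 3 * |y|) ^ 2 := pow_le_pow_left₀ (by norm_num) g5 2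
    rw [mul_pow, sq_abs] at this
    calc (1 : ℝ) = 1 ^ 2 := by norm_num
      _ ≤ _ := this
      _ = _ := by ring
  obtain ⟨a, ha⟩ : ∃ a, a = T * y ^ 2 / 2 := ⟨_, rfl⟩
  rw [← ha]
  have ha0 : 0 ≤ a := by
    rw [ha]
    positivity
  have ha1 : a ≤ 16 * B ^ 7 * X := by
    rw [ha]
    calc T * y ^ 2 / 2 ≤ 2 * B * X * (16 * B ^ 6) / 2 := by gcongr
      _ = 16 * B ^ 7 * X := by ring
  have ha2 : X ≤ 64 * B ^ 8 * a := by
    rw [ha]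
    calc X ≤ 2 * B ^ 2 * T := g2
      _ = 2 * B ^ 2 * T * 1 := by ring
      _ ≤ 2 * B ^ 2 * T * (16 * B ^ 6 * y ^ 2) := by gcongr
      _ = 64 * B ^ 8 * (T * y ^ 2 / 2) := by ring
  have pw : ∀ i : ℕ, i ≤ 22 → B ^ i ≤ B ^ 22 := fun i hi => pow_le_pow_right₀ hB hi
  refine ⟨?_, ?_, ?_, ?_, ?_⟩
  · show X ≤ 262144 * B ^ 22 * a
    calc X ≤ 64 * B ^ 8 * a := ha2
      _ ≤ 262144 * B ^ 22 * a := by
        have := pw 8 (by norm_num)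
        gcongr
        norm_num
  · show a ≤ 262144 * B ^ 22 * X
    calc a ≤ 16 * B ^ 7 * X := ha1
      _ ≤ 262144 * B ^ 22 * X := by
        have := pw 7 (by norm_num)
        gcongr
        norm_num
  · show |-(x * a)| ≤ 262144 * B ^ 22 * X
    rw [abs_neg, abs_mul, abs_of_nonneg ha0]
    calc |x| * a ≤ 4 * B ^ 3 * (16 * B ^ 7 * X) := by gcongr
      _ = 64 * B ^ 10 * X := by ring
      _ ≤ 262144 * B ^ 22 * X := by
        have := pw 10 (by norm_num)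
        gcongr
        norm_num
  · show |a * (x ^ 2 - y ^ 2 / 4)| ≤ 262144 * B ^ 22 * X
    have h4 : |x ^ 2 - y ^ 2 / 4| ≤ 16 * B ^ 6 := by
      rw [abs_le]
      have : 0 ≤ x ^ 2 := sq_nonneg x
      have : 0 ≤ y ^ 2 := sq_nonneg y
      constructor <;> linarith
    rw [abs_mul, abs_of_nonneg ha0]
    calc a * |x ^ 2 - y ^ 2 / 4| ≤ 16 * B ^ 7 * X * (16 * B ^ 6) := by gcongr
      _ = 256 * B ^ 13 * X := by ring
      _ ≤ 262144 * B ^ 22 * X := by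
        have := pw 13 (by norm_num)
        gcongr
        norm_num
  · show X ^ 2 ≤ 262144 * B ^ 22 * ((-(x * a)) ^ 2 - a * (x ^ 2 - y ^ 2 / 4) * a)
    have e1 : (-(x * a)) ^ 2 - a * (x ^ 2 - y ^ 2 / 4) * a = a ^ 2 * y ^ 2 / 4 := by ring
    rw [e1]
    calc X ^ 2 ≤ (64 * B ^ 8 * a) ^ 2 := pow_le_pow_left₀ hX.le ha2 2
      _ = 4096 * B ^ 16 * a ^ 2 * 1 := by ring
      _ ≤ 4096 * B ^ 16 * a ^ 2 * (16 * B ^ 6 * y ^ 2) := by gcongr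
      _ = 262144 * B ^ 22 * (a ^ 2 * y ^ 2 / 4) := by ring

/-- bounds for a frame in the region -/
theorem UB_bd {B X : ℝ} (hB : 0 ≤ B) (hX : 0 < X) {f : Fr} (hf : f ∈ UB B X) :
    0 < Tf f ∧ Tf f ^ 2 ≤ 2 * B ^ 2 * X ^ 2 ∧ Tf f ^ 2 * (xf f ^ 2 + yf f ^ 2) ≤ 2 * B ^ 2 * X ^ 2 ∧
      X ^ 2 ≤ B * (Tf f ^ 2 * |yf f|) ∧ df f = Tf f ^ 2 * yf f ∧ df f ≠ 0 := by
  obtain ⟨h1, h2, h3, h4, h5⟩ := hf
  have hd0 : df f ≠ 0 := by
    intro h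
    rw [h] at h5
    simp only [abs_zero, mul_zero] at h5
    have : 0 < X ^ 2 := by positivity
    linarith
  obtain ⟨q, hq⟩ : ∃ q, q = f.1.1 ^ 2 + f.1.2 ^ 2 := ⟨_, rfl⟩
  have hq0 : 0 < q := by
    rcases lt_or_eq_of_le (show 0 ≤ q by rw [hq]; positivity) with h | h
    · exact h
    · exfalso
      rw [hq] at h
      have e1 : f.1.1 = 0 := by nlinarith [sq_nonneg f.1.1, sq_nonneg f.1.2]
      have e2 : f.1.2 = 0 := by nlinarith [sq_nonneg f.1.1, sq_nonneg f.1.2]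
      apply hd0
      simp only [df, e1, e2]
      ring
  have eT : Tf f = sqrt q := by rw [hq]; rfl
  have eT2 : Tf f ^ 2 = q := by
    rw [eT, sq_sqrt hq0.le]
  have ex : xf f = (f.1.1 * f.2.1 + f.1.2 * f.2.2) / q := by rw [hq]; rfl
  have ey : yf f = df f / q := by rw [hq]; rfl
  have hb : ∀ z : ℝ, |z| ≤ B * X → z ^ 2 ≤ B ^ 2 * X ^ 2 := by
    intro z hz
    have : |z| ^ 2 ≤ (B * X) ^ 2 := pow_le_pow_left₀ (abs_nonneg _) hz 2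
    rw [sq_abs] at this
    calc z ^ 2 ≤ _ := this
      _ = _ := by ring
  have e3 : df f = Tf f ^ 2 * yf f := by
    rw [eT2, ey]
    field_simp
  refine ⟨by rw [eT]; exact sqrt_pos.2 hq0, ?_, ?_, ?_, e3, hd0⟩
  · rw [eT2, hq]
    have := hb _ h1
    have := hb _ h2
    linarith
  · have e4 : Tf f ^ 2 * (xf f ^ 2 + yf f ^ 2) = f.2.1 ^ 2 + f.2.2 ^ 2 := by
      rw [eT2, ex, ey]
      have e5 : (f.1.1 * f.2.1 + f.1.2 * f.2.2) ^ 2 + df f ^ 2 = q * (f.2.1 ^ 2 + f.2.2 ^ 2) := by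
        rw [hq]
        simp only [df]
        ring
      field_simp
      linarith
    rw [e4]
    have := hb _ h3
    have := hb _ h4
    linarith
  · have e6 : Tf f ^ 2 * |yf f| = |df f| := by
      rw [e3, abs_mul, abs_of_nonneg (sq_nonneg (Tf f))]
    rw [e6]
    exact h5

theorem Af_mem' {B : ℝ} (hB : 1 ≤ B) (X t₀ : ℝ) (f : Fr) (hX : 0 < X) (ht : |t₀| ≤ 3) (hf : f ∈ UB B X) :
    Af t₀ f ∈ OM (262144 * (4 * B) ^ 22) X := by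
  have h1 := shr_UB hX.le (by linarith) ht hf
  obtain ⟨g1, g2, g3, g4, -, -⟩ := UB_bd (by linarith) hX h1
  have h2 := OM_of g1 hX (by linarith : 1 ≤ 4 * B) g2 g3 g4
  exact h2

end Pool.Agent.Helper48.QL
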