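import Pool.Agent.Helper48.QL.L5b

/-!
# QL-L5: change of variables, lower bound
-/

open MeasureTheory Real Set Filter Topology

set_option autoImplicit false

namespace Pool.Agent.Helper48.QL

open Pool.Agent.Helper60.LT (Fr Tf xf yf df vf fr fr_coord fr_meas)
open Pool.Agent.Helper60.QL (R3 OM UB Af)

/-- bounds in the region of coordinates -/
theorem OM_bd {B X a b c : ℝ} (hB : 1 ≤ B) (hX : 0 < X) (h : (a, b, c) ∈ OM B X) : 0 < a ∧ c < b ^ 2 / a ∧
    TA a b c ≤ B ^ 4 * X ∧ X ≤ 4 * B ^ 5 * TA a b c ∧ |b / a| ≤ B ^ 2 ∧ yA a b c ≤ 3 * B ^ 2 ∧ 1 ≤ B ^ 2 * yA a b c := by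
  obtain ⟨h1, h2, h3, h4, h5⟩ := h
  simp only at h1 h2 h3 h4 h5
  have hB0 : 0 < B := by linarith
  have ha : 0 < a := by
    by_contra hcon
    push Not at hcon
    nlinarith
  have hd : 0 < b ^ 2 - c * a := by
    by_contra hcon
    push Not at hcon
    have : 0 < X ^ 2 := by positivity
    nlinarith
  have hc : c < b ^ 2 / a := by
    rw [lt_div_iff₀ ha]
    linarith
  have hy := yA_pos ha hc
  have hsq := yA_sq ha hc.le
  have hsq2 : yA a b c ^ 2 * a ^ 2 = 4 * (b ^ 2 - c * a) := by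
    rw [hsq]
    field_simp
  have hT : 0 < TA a b c := by
    unfold TA
    positivity
  have hTy : TA a b c * yA a b c ^ 2 = 2 * a := by
    unfold TA
    field_simp
  have hlo : 4 ≤ B ^ 3 * yA a b c ^ 2 := by
    have e1 : 4 * X ^ 2 ≤ B ^ 3 * yA a b c ^ 2 * X ^ 2 := by
      calc 4 * X ^ 2 ≤ 4 * (B * (b ^ 2 - c * a)) := by linarith
        _ = B * (yA a b c ^ 2 * a ^ 2) := by rw [hsq2]; ring
        _ ≤ B * (yA a b c ^ 2 * (B * X) ^ 2) := by gcongr
        _ = B ^ 3 * yA a b c ^ 2 * X ^ 2 := by ring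
    exact le_of_mul_le_mul_right e1 (by positivity)
  have hup : yA a b c ^ 2 ≤ 8 * B ^ 4 := by
    have hb2 : b ^ 2 ≤ (B * X) ^ 2 := by
      rw [← sq_abs b]
      exact pow_le_pow_left₀ (abs_nonneg _) h3 2
    have hca : -(c * a) ≤ (B * X) ^ 2 := by
      calc -(c * a) ≤ |c * a| := neg_le_abs _
        _ = |c| * a := by rw [abs_mul, abs_of_pos ha]
        _ ≤ (B * X) * (B * X) := by gcongr
        _ = (B * X) ^ 2 := by ring
    have e1 : yA a b c ^ 2 * a ^ 2 ≤ 8 * B ^ 4 * a ^ 2 := by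
      calc yA a b c ^ 2 * a ^ 2 = 4 * (b ^ 2 - c * a) := hsq2
        _ ≤ 8 * (B * X) ^ 2 := by linarith
        _ ≤ 8 * (B * (B * a)) ^ 2 := by gcongr
        _ = 8 * B ^ 4 * a ^ 2 := by ring
    exact le_of_mul_le_mul_right e1 (by positivity)
  refine ⟨ha, hc, ?_, ?_, ?_, ?_, ?_⟩
  · have e1 : TA a b c * 4 ≤ B ^ 4 * X * 4 := by
      calc TA a b c * 4 ≤ TA a b c * (B ^ 3 * yA a b c ^ 2) := by gcongr
        _ = B ^ 3 * (TA a b c * yA a b c ^ 2) := by ring
        _ = B ^ 3 * (2 * a) := by rw [hTy]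
        _ ≤ B ^ 3 * (2 * (B * X)) := by gcongr
        _ ≤ B ^ 4 * X * 4 := by
          have : 0 ≤ B ^ 4 * X := by positivity
          linarith [show B ^ 3 * (2 * (B * X)) = 2 * (B ^ 4 * X) by ring]
    linarith
  · have e1 : 2 * X ≤ 2 * (4 * B ^ 5 * TA a b c) := by
      calc 2 * X ≤ 2 * (B * a) := by linarith
        _ = B * (2 * a) := by ring
        _ = B * (TA a b c * yA a b c ^ 2) := by rw [hTy]
        _ ≤ B * (TA a b c * (8 * B ^ 4)) := by gcongr
        _ = 2 * (4 * B ^ 5 * TA a b c) := by ring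
    linarith
  · rw [abs_div, abs_of_pos ha, div_le_iff₀ ha]
    calc |b| ≤ B * X := h3
      _ ≤ B * (B * a) := by gcongr
      _ = B ^ 2 * a := by ring
  · have e1 : yA a b c ^ 2 ≤ (3 * B ^ 2) ^ 2 := by
      have : 0 ≤ B ^ 4 := by positivity
      calc yA a b c ^ 2 ≤ 8 * B ^ 4 := hup
        _ ≤ (3 * B ^ 2) ^ 2 := by linarith [show (3 * B ^ 2) ^ 2 = 9 * B ^ 4 by ring]
    exact (abs_le_of_sq_le_sq' e1 (by positivity)).2
  · have e1 : (1 : ℝ) ^ 2 ≤ (B ^ 2 * yA a b c) ^ 2 := by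
      calc (1 : ℝ) ^ 2 ≤ 4 := by norm_num
        _ ≤ B ^ 3 * yA a b c ^ 2 := hlo
        _ ≤ B ^ 4 * yA a b c ^ 2 := by
          have := pow_le_pow_right₀ hB (show 3 ≤ 4 by norm_num)
          gcongr
        _ = (B ^ 2 * yA a b c) ^ 2 := by ring
    exact (abs_le_of_sq_le_sq' e1 (by positivity)).2

theorem frA_UB {B X a b c θ : ℝ} (hB : 1 ≤ B) (hX : 0 < X) (h : (a, b, c) ∈ OM B X) : frA θ a b c ∈ UB (16 * B ^ 12) X := by
  obtain ⟨ha, hc, h1, h2, h3, h4, h5⟩ := OM_bd hB hX h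
  obtain ⟨e1, e2, e3, e4, hy, hT⟩ := frA_coord (θ := θ) ha hc
  have hB0 : 0 < B := by linarith
  have hs := abs_sin_le_one θ
  have hcs := abs_cos_le_one θ
  have pw : ∀ i : ℕ, i ≤ 12 → B ^ i ≤ B ^ 12 := fun i hi => pow_le_pow_right₀ hB hi
  have k1 : B ^ 4 * X ≤ 16 * B ^ 12 * X := by
    have := pw 4 (by norm_num)
    have : 0 ≤ B ^ 12 := by positivity
    have : B ^ 4 ≤ 16 * B ^ 12 := by linarith
    gcongr
  have k2 : B ^ 4 * X * (4 * B ^ 2) ≤ 16 * B ^ 12 * X := by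
    have e : B ^ 4 * X * (4 * B ^ 2) = 4 * B ^ 6 * X := by ring
    rw [e]
    have := pw 6 (by norm_num)
    have : 0 ≤ B ^ 12 := by positivity
    have : 4 * B ^ 6 ≤ 16 * B ^ 12 := by linarith
    gcongr
  have k3 : ∀ p q : ℝ, |p| ≤ 1 → |q| ≤ 1 → |TA a b c * (-(b / a) * p + yA a b c * q)| ≤ 16 * B ^ 12 * X := by
    intro p q hp hq
    rw [abs_mul, abs_of_pos hT]
    have h6 : |-(b / a) * p + yA a b c * q| ≤ 4 * B ^ 2 := by
      calc |-(b / a) * p + yA a b c * q| ≤ |-(b / a) * p| + |yA a b c * q| := abs_add_le _ _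
        _ = |b / a| * |p| + yA a b c * |q| := by rw [abs_mul, abs_mul, abs_neg, abs_of_pos hy]
        _ ≤ B ^ 2 * 1 + 3 * B ^ 2 * 1 := by gcongr
        _ = 4 * B ^ 2 := by ring
    calc TA a b c * |-(b / a) * p + yA a b c * q| ≤ B ^ 4 * X * (4 * B ^ 2) := by gcongr
      _ ≤ _ := k2
  refine ⟨?_, ?_, ?_, ?_, ?_⟩
  · show |TA a b c * cos θ| ≤ _
    rw [abs_mul, abs_of_pos hT]
    calc TA a b c * |cos θ| ≤ B ^ 4 * X * 1 := by gcongr
      _ ≤ _ := by linarith
  · show |TA a b c * sin θ| ≤ _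
    rw [abs_mul, abs_of_pos hT]
    calc TA a b c * |sin θ| ≤ B ^ 4 * X * 1 := by gcongr
      _ ≤ _ := by linarith
  · show |TA a b c * (-(b / a) * cos θ - yA a b c * sin θ)| ≤ _
    have := k3 (cos θ) (-sin θ) hcs (by rw [abs_neg]; exact hs)
    have e : -(b / a) * cos θ - yA a b c * sin θ = -(b / a) * cos θ + yA a b c * -sin θ := by ring
    rw [e]
    exact this
  · show |TA a b c * (-(b / a) * sin θ + yA a b c * cos θ)| ≤ _
    exact k3 (sin θ) (cos θ) hs hcs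
  · rw [e4, abs_of_pos (by positivity)]
    calc X ^ 2 ≤ (4 * B ^ 5 * TA a b c) ^ 2 := pow_le_pow_left₀ hX.le h2 2
      _ = 16 * B ^ 10 * TA a b c ^ 2 * 1 := by ring
      _ ≤ 16 * B ^ 10 * TA a b c ^ 2 * (B ^ 2 * yA a b c) := by gcongr
      _ = 16 * B ^ 12 * (TA a b c ^ 2 * yA a b c) := by ring

/-- lower bound for the integral over frames of positive determinant -/
theorem lo_pos {B : ℝ} (hB : 1 ≤ B) {X : ℝ} (hX : 0 < X) {Φ : R3 → ENNReal} (hΦ : Measurable Φ) :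
    ENNReal.ofReal X * ∫⁻ A in OM B X, Φ A ≤ ENNReal.ofReal (1000 * B ^ 19) *
      ∫⁻ f, {f : Fr | 0 < df f}.indicator ((UB (16 * B ^ 12) X).indicator fun f => Φ (Af 0 f)) f := by
  have hB0 : 0 < B := by linarith
  have hm : MeasurableSet {f : Fr | 0 < df f} := measurableSet_lt measurable_const df_meas
  have hF : Measurable ({f : Fr | 0 < df f}.indicator ((UB (16 * B ^ 12) X).indicator fun f => Φ (Af 0 f))) :=
    ((hΦ.comp (Af_meas 0)).indicator (UB_meas _ X)).indicator hm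
  have hOm : Measurable ((OM B X).indicator Φ) := hΦ.indicator (OM_meas _ _)
  rw [int_A hF (fun f hf => indicator_of_notMem (show f ∉ {f : Fr | 0 < df f} from not_lt.2 hf) _)]
  have key : ∀ θ : ℝ, ENNReal.ofReal X * ∫⁻ A in OM B X, Φ A ≤ ENNReal.ofReal (1000 * B ^ 19) *
      ∫⁻ A in Ioi (0 : ℝ), ∫⁻ b, ∫⁻ c in Iio (b ^ 2 / A), ENNReal.ofReal (16 * TA A b c / yA A b c ^ 7) *
      {f : Fr | 0 < df f}.indicator ((UB (16 * B ^ 12) X).indicator fun f => Φ (Af 0 f)) (frA θ A b c) := by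
    intro θ
    rw [← lintegral_indicator (OM_meas _ _), lint3 hOm, ← lintegral_const_mul' _ _ ENNReal.ofReal_ne_top,
      ← lintegral_const_mul' _ _ ENNReal.ofReal_ne_top, ← lintegral_indicator measurableSet_Ioi]
    refine lintegral_mono fun a => ?_
    simp only
    by_cases ha : 0 < a
    swap
    · have e0 : ∀ b c : ℝ, (OM B X).indicator Φ (a, b, c) = 0 := by
        intro b c
        rw [indicator_of_notMem]
        intro h
        exact ha (OM_bd hB hX h).1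
      simp only [e0, lintegral_zero, mul_zero]
      exact zero_le
    rw [indicator_of_mem (show a ∈ Ioi (0 : ℝ) from ha), ← lintegral_const_mul' _ _ ENNReal.ofReal_ne_top,
      ← lintegral_const_mul' _ _ ENNReal.ofReal_ne_top]
    refine lintegral_mono fun b => ?_
    simp only
    rw [← lintegral_const_mul' _ _ ENNReal.ofReal_ne_top, ← lintegral_const_mul' _ _ ENNReal.ofReal_ne_top, ← lintegral_indicator measurableSet_Iio]
    refine lintegral_mono fun c => ?_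
    simp only
    by_cases hO : (a, b, c) ∈ OM B X
    swap
    · rw [indicator_of_notMem hO, mul_zero]
      exact zero_le
    rw [indicator_of_mem hO]
    obtain ⟨-, hc, h1, h2, h3, h4, h5⟩ := OM_bd hB hX hO
    obtain ⟨e1, e2, e3, e4, hy, hT⟩ := frA_coord (θ := θ) ha hc
    have hd : frA θ a b c ∈ {f : Fr | 0 < df f} := by
      show 0 < df (frA θ a b c)
      rw [e4]
      positivity
    rw [indicator_of_mem (show c ∈ Iio (b ^ 2 / a) from hc), indicator_of_mem hd, indicator_of_mem (frA_UB hB hX hO), Af_frA ha hc,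
      ← mul_assoc, ← ENNReal.ofReal_mul (by positivity)]
    refine mul_le_mul_left (ENNReal.ofReal_le_ofReal ?_) _
    have k1 : yA a b c ^ 7 ≤ (3 * B ^ 2) ^ 7 := pow_le_pow_left₀ hy.le h4 7
    rw [← mul_div_assoc, le_div_iff₀ (by positivity)]
    calc X * yA a b c ^ 7 ≤ 4 * B ^ 5 * TA a b c * (3 * B ^ 2) ^ 7 := by gcongr
      _ = 8748 * B ^ 19 * TA a b c := by ring
      _ ≤ 16000 * B ^ 19 * TA a b c := by gcongr; norm_num
      _ = 1000 * B ^ 19 * (16 * TA a b c) := by ring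
  calc ENNReal.ofReal X * ∫⁻ A in OM B X, Φ A ≤ ENNReal.ofReal (2 * π) * (ENNReal.ofReal X * ∫⁻ A in OM B X, Φ A) := by
        have e1 : (1 : ENNReal) ≤ ENNReal.ofReal (2 * π) := by
          rw [← ENNReal.ofReal_one]
          refine ENNReal.ofReal_le_ofReal ?_
          linarith [pi_gt_three]
        calc ENNReal.ofReal X * ∫⁻ A in OM B X, Φ A = 1 * (ENNReal.ofReal X * ∫⁻ A in OM B X, Φ A) := by rw [one_mul]
          _ ≤ _ := mul_le_mul_left e1 _
    _ = ∫⁻ θ in Ioc (-π) π, ENNReal.ofReal X * ∫⁻ A in OM B X, Φ A := by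
        rw [setLIntegral_const, Real.volume_Ioc, mul_comm]
        have e2 : π - -π = 2 * π := by ring
        rw [e2]
    _ ≤ _ := by
        rw [← lintegral_const_mul' (ENNReal.ofReal (1000 * B ^ 19)) _ ENNReal.ofReal_ne_top]
        exact lintegral_mono fun θ => key θ

theorem cov_lo' {B : ℝ} (hB : 1 ≤ B) (X t₀ : ℝ) (Φ : R3 → ENNReal) (hX : 0 < X) (ht : |t₀| ≤ 3) (hΦ : Measurable Φ) :
    ENNReal.ofReal X * ∫⁻ A in OM B X, Φ A ≤ ENNReal.ofReal (1000 * B ^ 19) * ∫⁻ f in UB (4 * (16 * B ^ 12)) X, Φ (Af t₀ f) := by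
  refine (lo_pos hB hX hΦ).trans (mul_le_mul_right ?_ _)
  have hB0 : 0 < B := by linarith
  have hH : Measurable ((UB (16 * B ^ 12) X).indicator fun f => Φ (Af 0 f)) := (hΦ.comp (Af_meas 0)).indicator (UB_meas _ _)
  calc ∫⁻ f, {f : Fr | 0 < df f}.indicator ((UB (16 * B ^ 12) X).indicator fun f => Φ (Af 0 f)) f
      ≤ ∫⁻ f, (UB (16 * B ^ 12) X).indicator (fun f => Φ (Af 0 f)) f := lintegral_mono fun f => indicator_le_self _ _ _
    _ = ∫⁻ f, (UB (16 * B ^ 12) X).indicator (fun f => Φ (Af 0 f)) (shr t₀ f) := (shear_int hH t₀).symm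
    _ ≤ ∫⁻ f, (UB (4 * (16 * B ^ 12)) X).indicator (fun f => Φ (Af t₀ f)) f := by
        refine lintegral_mono fun f => ?_
        by_cases hf : shr t₀ f ∈ UB (16 * B ^ 12) X
        · have h2 : f ∈ UB (4 * (16 * B ^ 12)) X := by
            have := shr_UB (t₀ := -t₀) hX.le (by positivity) (by rw [abs_neg]; exact ht) hf
            rwa [shr_neg] at this
          rw [indicator_of_mem hf, indicator_of_mem h2, Af_shr]
        · rw [indicator_of_notMem hf]
          exact zero_le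
    _ = _ := lintegral_indicator (UB_meas _ _) _

end Pool.Agent.Helper48.QL
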