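import Pool.Agent.Helper60.LT.D1

/-!
# QL-Q5: frames in the coordinates of the expansion of the length

`T √((1 + x τ)² + y² τ²) = T (1 + x τ) + A₂ τ² + A₃ τ³ + A₄ τ⁴ + ...`, `A₂ = T y²/2`, `A₃ = - x A₂`, `A₄ = A₂ (x² - y²/4)`.
-/

open MeasureTheory Real Set Filter Topology

set_option autoImplicit false

namespace Pool.Agent.Helper48.QL

open Pool.Agent.Helper60.LT

/-- the height -/
noncomputable def yA (A B C : ℝ) : ℝ := 2 * sqrt ((B / A) ^ 2 - C / A)

/-- the length of the first vector -/
noncomputable def TA (A B C : ℝ) : ℝ := 2 * A / yA A B C ^ 2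

/-- the frame with the coordinates `θ, A₂, A₃, A₄` -/
noncomputable def frA (θ A B C : ℝ) : Fr := fr θ (yA A B C) (TA A B C) (-(B / A))

theorem sub1 (Φ : ℝ → ENNReal) {y : ℝ} (hy : y ≠ 0) :
    ∫⁻ T in Ioi (0 : ℝ), Φ T = ∫⁻ A in Ioi (0 : ℝ), ENNReal.ofReal (2 / y ^ 2) * Φ (2 * A / y ^ 2) := by
  have hy2 : 0 < y ^ 2 := by positivity
  have him : (fun A : ℝ => 2 * A / y ^ 2) '' Ioi (0 : ℝ) = Ioi 0 := by
    ext T
    constructor
    · rintro ⟨A, hA, rfl⟩
      have hA' : 0 < A := hA
      show 0 < 2 * A / y ^ 2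
      positivity
    · intro hT
      have hT' : 0 < T := hT
      refine ⟨T * y ^ 2 / 2, show 0 < T * y ^ 2 / 2 by positivity, ?_⟩
      field_simp
  have h := lintegral_image_eq_lintegral_abs_deriv_mul (s := Ioi (0 : ℝ)) (f := fun A : ℝ => 2 * A / y ^ 2)
    (f' := fun _ => 2 / y ^ 2) measurableSet_Ioi (fun A _ => by
      have h1 : HasDerivAt (fun A : ℝ => 2 * A / y ^ 2) (2 * 1 / y ^ 2) A := ((hasDerivAt_id A).const_mul 2).div_const _
      rw [mul_one] at h1
      exact h1.hasDerivWithinAt) (by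
      intro a _ b _ hab
      simp only at hab
      field_simp at hab
      linarith) Φ
  rw [him] at h
  rw [h]
  refine lintegral_congr fun A => ?_
  rw [abs_of_pos (by positivity)]

theorem sub2 (Φ : ℝ → ENNReal) {A : ℝ} (hA : 0 < A) :
    ∫⁻ x, Φ x = ∫⁻ B, ENNReal.ofReal (1 / A) * Φ (-(B / A)) := by
  have him : (fun B : ℝ => -(B / A)) '' univ = univ := by
    rw [image_univ]
    refine range_eq_univ.2 fun x => ⟨-(x * A), ?_⟩
    field_simp
  have h := lintegral_image_eq_lintegral_abs_deriv_mul (s := univ) (f := fun B : ℝ => -(B / A))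
    (f' := fun _ => -(1 / A)) MeasurableSet.univ (fun B _ =>
      (((hasDerivAt_id B).div_const A).neg).hasDerivWithinAt) (by
      intro a _ b _ hab
      simp only at hab
      field_simp at hab
      linarith) Φ
  rw [him, setLIntegral_univ, setLIntegral_univ] at h
  rw [h]
  refine lintegral_congr fun B => ?_
  rw [abs_neg, abs_of_pos (by positivity)]

theorem yA_sq {A B C : ℝ} (hA : 0 < A) (h : C ≤ B ^ 2 / A) : yA A B C ^ 2 = 4 * ((B / A) ^ 2 - C / A) := by
  have h1 : 0 ≤ (B / A) ^ 2 - C / A := by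
    have h2 : C / A ≤ B ^ 2 / A / A := div_le_div_of_nonneg_right h hA.le
    have h3 : B ^ 2 / A / A = (B / A) ^ 2 := by
      field_simp
    rw [h3] at h2
    linarith
  unfold yA
  rw [mul_pow, sq_sqrt h1]
  norm_num

theorem yA_pos {A B C : ℝ} (hA : 0 < A) (h : C < B ^ 2 / A) : 0 < yA A B C := by
  have h1 : 0 < (B / A) ^ 2 - C / A := by
    have h2 : C / A < B ^ 2 / A / A := div_lt_div_of_pos_right h hA
    have h3 : B ^ 2 / A / A = (B / A) ^ 2 := by
      field_simp
    rw [h3] at h2
    linarith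
  unfold yA
  have := sqrt_pos.2 h1
  positivity

theorem sub3 (Φ : ℝ → ENNReal) {A : ℝ} (hA : 0 < A) (B : ℝ) :
    ∫⁻ y in Ioi (0 : ℝ), Φ y = ∫⁻ C in Iio (B ^ 2 / A), ENNReal.ofReal (2 / (A * yA A B C)) * Φ (yA A B C) := by
  have him : (fun C : ℝ => yA A B C) '' Iio (B ^ 2 / A) = Ioi 0 := by
    ext y
    constructor
    · rintro ⟨C, hC, rfl⟩
      exact yA_pos hA hC
    · intro hy
      have hy' : 0 < y := hy
      have hC : A * ((B / A) ^ 2 - y ^ 2 / 4) < B ^ 2 / A := by
        have h3 : B ^ 2 / A = A * (B / A) ^ 2 := by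
          field_simp
        rw [h3]
        have : 0 < y ^ 2 / 4 := by positivity
        nlinarith
      refine ⟨A * ((B / A) ^ 2 - y ^ 2 / 4), hC, ?_⟩
      have h1 : (B / A) ^ 2 - A * ((B / A) ^ 2 - y ^ 2 / 4) / A = (y / 2) ^ 2 := by
        field_simp
        ring
      show yA A B _ = y
      unfold yA
      rw [h1, sqrt_sq (by positivity)]
      ring
  have h := lintegral_image_eq_lintegral_abs_deriv_mul (s := Iio (B ^ 2 / A)) (f := fun C : ℝ => yA A B C)
    (f' := fun C => -(2 / (A * yA A B C))) measurableSet_Iio (fun C hC => by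
      have hpos := yA_pos hA hC
      have hsq := yA_sq hA (le_of_lt hC)
      have h1 : HasDerivAt (fun C : ℝ => (B / A) ^ 2 - C / A) (-(1 / A)) C := by
        have := ((hasDerivAt_id C).div_const A).const_sub ((B / A) ^ 2)
        simpa using this
      have h2 : (B / A) ^ 2 - C / A ≠ 0 := by
        intro h0
        rw [h0] at hsq
        have : 0 < yA A B C ^ 2 := by positivity
        linarith
      have h3 := (h1.sqrt h2).const_mul 2
      have h4 : 2 * (-(1 / A) / (2 * √((B / A) ^ 2 - C / A))) = -(2 / (A * yA A B C)) := by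
        have h5 : √((B / A) ^ 2 - C / A) = yA A B C / 2 := by
          unfold yA
          ring
        rw [h5]
        field_simp
      rw [h4] at h3
      exact h3.hasDerivWithinAt) (by
      intro a ha b hb hab
      have h1 := yA_sq hA (le_of_lt ha)
      have h2 := yA_sq hA (le_of_lt hb)
      simp only at hab
      rw [hab] at h1
      have h3 : (B / A) ^ 2 - a / A = (B / A) ^ 2 - b / A := by linarith
      have h4 : a / A = b / A := by linarith
      field_simp at h4
      exact h4) Φ
  rw [him] at h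
  rw [h]
  refine setLIntegral_congr_fun measurableSet_Iio fun C hC => ?_
  have hpos := yA_pos hA hC
  rw [abs_neg, abs_of_pos (by positivity)]

end Pool.Agent.Helper48.QL
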